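import Pool.Agent.N174.NC.VMain

/-!
# The noncommutative variational Hodge conjecture for the products of a family of categories with
# families of varieties

Let `𝒞` be an arbitrary family of admissible subcategories over a complex variety `S` (an `S`-linear
admissible subcategory of `D^perf(T)`, `T` smooth and proper over `S`), and let `V` be a smooth
projective family of varieties over `S`. The theorem is about the family `D(V) ⊠ 𝒞`. Let `Γ` be
the fundamental group of `S`, acting on the topological K-theory `M` of a fibre of `𝒞` and on
the cohomology of the fibre of `V`. The noncommutative variational Hodge conjecture for `D(V) ⊠ 𝒞`
says that a class of `H(V) ⊗ M` which is fixed by a subgroup of finite index (a flat section over a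
finite covering of `S`) and comes from objects in one point `s` comes from objects in all points
`t`. The theorem reduces it for `D(V) ⊠ 𝒞` to the one for `D(V₀) ⊠ 𝒞`, for all families `V` which
are obtained from `V₀` by the following steps:

* from `Y ^ (n + 1) × Z` to `X ^ (n + 1) × Z`, in all powers, where `f : X ⟶ Y` is a morphism whose
  vanishing cohomology `E = ker f_*` is in the middle degree and irreducible under all subgroups of
  finite index of `Γ`, with a retraction of `f^*` along `E` which is given by algebraic
  correspondences, and some element of `Γ` acts trivially on the cohomology of `Y` and `Z` and on
  `M`, and by a Picard-Lefschetz formula on `E`; if the dimension of `X` is even, `n + 1 < dim E`;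
* from `Z` to `Y × Z`, where `Y` is constant with a decomposable diagonal (toric varieties,
  homogeneous spaces and so on);
* from `V` to the families dominated by `V`.

For example let `X` be the family of smooth hypersurfaces of odd dimension in a projective space
over an open subset `S` of a Lefschetz pencil, and let `𝒞` be any family of admissible subcategories
over `S` with trivial local monodromy at one of the singular members of the pencil (for instance a
family which extends over it). Then the noncommutative variational Hodge conjecture for
`D(X ^ n) ⊠ 𝒞`, for all `n`, is equivalent to the one for `𝒞`; if `𝒞` is constant it is true.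

In the statement only the properties of the classes of objects of `D(V) ⊠ 𝒞` are used that are
listed in `CatFamily`: for every point `s` they are rational subspaces of `H(V) ⊗ M` which are stable
under pull-back and push-forward for the morphisms of varieties, and under the product with the
classes of cycles on `V`.
-/

open CategoryTheory Pool.Agent.H914 Pool.Agent.N174.NC

universe u v w x

namespace Pool.Agent.Results.MP_298761_ag.FamiliesTimesCategories

/-- **The noncommutative variational Hodge conjecture for `D(V) ⊠ 𝒞`.** -/
theorem result {k : Type u} [Field k] {𝒱 : VarClass k} {ops : CycleOps 𝒱}
    {W : WeilCohomology.{u, v} ops} {Γ : Type w} [Group Γ] {S : Type x} {𝒞 : CatFamily W Γ S}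
    {V₀ V : 𝒱.Obj} {υ₀ : Act W Γ V₀} {υ : Act W Γ V} (h : FamReach 𝒞 V₀ υ₀ V υ)
    (h₀ : NCVariational 𝒞 V₀ υ₀) : NCVariational 𝒞 V υ :=
  ncVariational_of_reach h h₀

end Pool.Agent.Results.MP_298761_ag.FamiliesTimesCategories
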