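import Mathlib
import Pool.Agent.N995.NcV
import Pool.Agent.N995.Nc1

/-!
# The noncommutative variational Hodge conjecture for families of categories generated by abelian schemes

Let `f : X → S` be a smooth proper morphism of complex varieties and `C` an `S`-linear admissible subcategory
of `D^perf(X)`. Suppose that for one very general point `η` of `S` the category `C_η` is a direct factor
(through kernels, with rational coefficients) of a finite sum of categories `D(A j)`, where the `A j` are
complex abelian varieties of any dimension. Suppose that for each `j` either (`SmallTypes`) each simple
factor of `A j`

* has dimension at most three, or
* is of Albert type I or II with odd relative dimension, or relative dimension at most three (the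
  dimension is unbounded, for instance `End = ℤ` and any odd dimension), or
* has an imaginary quadratic field as its endomorphism algebra, with multiplicities at most three (and
  trivial discriminant if both are three), or
* has complex multiplication; where the CM part, with the CM curves of the quadratic fields of unbalanced
  factors, is divided into independent blocks of known kinds;

or (`FactorsOfSmall`) all simple factors of `A j` are factors of one abelian variety of dimension at most
five without fourfold factor `Y` with `End(Y) = ℤ`.

Then every global section of `K_0^top(C/S) ⊗ ℚ` that is algebraic at one point of `S` is algebraic at every
point of `S`. There is no condition on the special fibres.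

Examples (not formalised): `C = D^perf(X)` where `X → S` is an abelian scheme of relative dimension at most
five (without factor of dimension four with `End = ℤ` in the very general fibre), or a power of it, or the
relative moduli space of stable sheaves, the relative Hilbert scheme of points of an abelian surface or a
symmetric power of a family of curves with such Jacobians; the admissible subcategories of all these; and the
families of residual categories of varieties with semiorthogonal decompositions whose other components are
known.
-/

namespace Pool.Agent.Results.MP_298761_ag.GeneratedByAbelianSchemes

open Module Pool.Agent.Y90 Pool.Agent.N995.OD Pool.Agent.N995.NC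

/-- **The noncommutative variational Hodge conjecture for families of categories generated by abelian
schemes.** `G` is the space of global sections of the local system with the fibres `W s`. -/
theorem result {S G : Type} [AddCommGroup G] [Module ℚ G] {W : S → Type}
    [∀ s, AddCommGroup (W s)] [∀ s, Module ℚ (W s)] (ev : ∀ s, G →ₗ[ℚ] W s)
    (Hdg Z : ∀ s, Submodule ℚ (W s)) (η : S) (hC : IsFamily ev Hdg Z η)
    {J : Type} [Fintype J] (A : J → AV) (hA : ∀ j, SmallTypes (A j) ∨ FactorsOfSmall (A j))
    (b : J → ℕ) (f : ∀ j, Coh (A j) (b j) →ₗ[ℚ] W η) (g : ∀ j, W η →ₗ[ℚ] Coh (A j) (b j))
    (h : IsDirectFactor A b (Hdg η) (Z η) f g) (φ : G) (s₀ : S) (h₀ : ev s₀ φ ∈ Z s₀) (s : S) :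
    ev s φ ∈ Z s :=
  hC.spread φ (hodge_le hA h (hC.hodge φ s₀ h₀)) s

end Pool.Agent.Results.MP_298761_ag.GeneratedByAbelianSchemes
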