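import Pool.Agent.N179.NV.Fin

/-!
# The noncommutative variational Hodge conjecture for the products of an arbitrary family of categories
# with members of an independent set of families

Let `S` be a smooth connected complex variety, `Γ` its fundamental group, `𝒱` the class of the smooth
projective families over `S` (given by their generic fibres over the function field of `S`, or over its
algebraic closure if one allows finite coverings of `S`), and `W` the cohomology of the fibre over a
base point with coefficients in a field `K` isomorphic to `ℂ`, with the monodromy action of `Γ`.

Let `𝒞` be an **arbitrary** `S`-linear admissible subcategory of `D_perf(X)`, where `X` is smooth and proper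
over `S` (`CatVar`): `M` is the topological K-theory (`K_0 ⊕ K_1`) of a fibre with coefficients in `K`,
with the monodromy action. For a smooth projective family `V` over `S` the topological K-theory of
`D(V) ⊠ 𝒞` is `H(V) ⊗ M`, and `obj t V` is the span of the (Mukai) classes of the objects of the category
`D(V_t) ⊠ 𝒞_t`, for the points `t` of `S` (transported along a path). These spaces are stable under
pull-backs and push-forwards in the variable `V` (by the theorem of Riemann–Roch) and under products
with classes of relative cycles on `V`. The conjecture (Q1) for `D(V) ⊠ 𝒞` and the pull-backs to the finite
coverings of `S` says (`NCVarHodge`): all classes in `obj s V` which are fixed by a subgroup of finite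
index of `Γ` are in `obj t V`, for all `s` and `t`. (With rational coefficients this is the same statement,
since both sides are given by rational subspaces.)

A vector of a representation is *semi-invariant* if a subgroup of finite index multiplies it by a
character. Let `V_i`, `i ∈ ι`, be any set of variations of Hodge structure (local systems) over `S` such
that the representations `End V_i` of `Γ` are semisimple (always true by Deligne), and which are pairwise
independent: for `i ≠ j` every equivariant linear map `End V_i → End V_j` has its values in the span of
the semi-invariant vectors. For instance `V_i = R^1 π_* ℚ` for pairwise not isogenous (over all finite
coverings of `S`), not isotrivial families of elliptic curves, or for families of abelian varieties of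
odd dimension, pairwise not isogenous, with monodromy group Zariski dense in `Sp`.

Let `P_a` be families with cohomology generated by `V_(i_a)` and by semi-invariant classes, for
instance **any fibre power** of the family `i`, such that all semi-invariant classes are combinations of
classes of relative cycles (`Factor`): for the examples this is the first fundamental theorem of
invariant theory.

**Theorem.** There are finite sets `E(U)` of indices, for all representations `U` of `Γ`, with
`|E(U)| + d' ≤ d`, where `d = dim U` and `d'` is the dimension of the span of the semi-invariant
vectors (`2 |E(U)| + d' ≤ d` if `U` carries an invariant form up to a character), and with
`E(V_j) ⊆ {j}`, such that for **every** family of categories `𝒞`, all families `Z` (for instance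
`Z = S`, or an arbitrary family, or a power of one) with cohomology generated by semi-invariant
classes and the images of `U_1, ..., U_m`, and all fibre products `Y = P_1 × ... × P_n × Z` with pairwise
different indices `i_a` outside `E(U_1)`, ..., `E(U_m)` and `E(M)`:

**the noncommutative variational Hodge conjecture for `D(Y) ⊠ 𝒞` is equivalent to the conjecture for
`D(Z) ⊠ 𝒞`**; with `Z = S`: the conjecture for `D(P_1 × ... × P_n) ⊠ 𝒞` is equivalent to the conjecture for
`𝒞`.

Examples: `𝒞` a family of noncommutative K3 or Enriques surfaces (for instance the Kuznetsov component
of a family of cubic fourfolds), of noncommutative curves or Calabi–Yau categories, of derived
categories of sheaves twisted by a Brauer class, or of categories `D(B, 𝒜)` for a family of sheaves of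
algebras; `P` the fibre powers of one not isotrivial family of elliptic curves `A_i`, outside the finite
set. If the conjecture is known for `𝒞` (for instance for Kuznetsov components of cubic fourfolds, where
the integral Hodge conjecture holds for the fibres) then it follows for `D(A_1^(n_1) × ... × A_m^(n_m)) ⊠ 𝒞`.

The proof: the slices on `P` of a class on `D(P × Y') ⊠ 𝒞` which is fixed by a subgroup of finite index are
combinations of semi-invariant classes (the engine of `MP_021685_ag.IndependenceFromSquares` applied to
the monodromy representation on `H(Y') ⊗ M`), so combinations of relative cycles on `P`; the components
with respect to a basis of the relative cycles are obtained by the product with the dual cycles and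
push-forward, so they come from objects over `s` if the class does, and they are fixed by a subgroup of
finite index; then they come from objects over `t`.
-/

set_option autoImplicit false

universe u

namespace Pool.Agent.Results.MP_298761_ag.IndependentFamilies

open Pool.Agent.H914 Pool.Agent.N179.GR.S Pool.Agent.N179.NV

/-- **The noncommutative variational Hodge conjecture, independent families, and an arbitrary family
of categories.** -/
theorem result {k : Type u} [Field k] {𝒱 : VarClass k} {ops : CycleOps 𝒱}
    {W : WeilCohomology.{u, 0} ops} (hK : Nonempty (W.K ≃+* ℂ)) {Γ : Type} [Group Γ]
    {ι : Type} {V : ι → GRep W.K Γ} (hV : Family V) :
    ∃ E : GRep W.K Γ → Set ι, NCSplitting V E :=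
  final hK hV

end Pool.Agent.Results.MP_298761_ag.IndependentFamilies
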